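import Pool.Agent.H26.REM.Targets2

/-!
# MP_c65535_nt, row MPB: the theorem for the levels prime to `p`, inside the level field
-/

set_option autoImplicit false

namespace Pool.Agent.H46.REM

open Pool.Agent.H26.REM NumberField Height Finset Polynomial
open Pool.Agent.H29.SX (IsPt IsNm)

theorem mpb_pt {M : Type} [Field M] {r : ℕ} {θ : Fin r → M} {β : M} (hβ : β ≠ 0)
    (hθ : ∀ i, θ i ≠ 0) : IsPt (mon θ β) where
  zero := by simp [mon]
  add a b := by
    unfold mon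
    have h : ∏ i : Fin r, θ i ^ ((a + b) i.succ) =
        (∏ i : Fin r, θ i ^ (a i.succ)) * ∏ i : Fin r, θ i ^ (b i.succ) := by
      rw [← Finset.prod_mul_distrib]
      exact Finset.prod_congr rfl fun i _ => by rw [Pi.add_apply, zpow_add₀ (hθ i)]
    rw [h, Pi.add_apply, zpow_add₀ hβ]
    ring

theorem mpb_ne {M : Type} [Field M] {r : ℕ} {θ : Fin r → M} {β : M} (hβ : β ≠ 0)
    (hθ : ∀ i, θ i ≠ 0) (b : Fin (r + 1) → ℤ) : mon θ β b ≠ 0 :=
  mul_ne_zero (zpow_ne_zero _ hβ) (Finset.prod_ne_zero_iff.2 fun i _ => zpow_ne_zero _ (hθ i))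

/-- a torsion relation with `b 0 ≠ 0` makes `β` dependent -/
theorem mpb_dep {M : Type} [Field M] [CharZero M] {r : ℕ} {a : Fin r → ℚ} {N : Fin r → ℕ}
    {θ : Fin r → M} {β : M} (hβ : β ≠ 0) (hN : ∀ i, 0 < N i)
    (hpow : ∀ i, θ i ^ N i = ((a i : ℚ) : M)) (b : Fin (r + 1) → ℤ) (hb : b 0 ≠ 0) (t : ℕ)
    (ht : 0 < t) (h : mon θ β b ^ t = 1) :
    ∃ (n : ℕ) (x : Fin r → ℤ), 0 < n ∧ β ^ n = ∏ i, ((a i : ℚ) : M) ^ x i := by
  set P := ∏ i, N i with hP
  have hP0 : 0 < P := Finset.prod_pos fun i _ => hN i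
  set s : ℕ := t * P with hs
  have hs0 : 0 < s := Nat.mul_pos ht hP0
  set E : Fin r → ℤ := fun i => b i.succ * ((t * (P / N i) : ℕ) : ℤ) with hE
  have hE1 : ∀ i, (θ i ^ b i.succ) ^ s = ((a i : ℚ) : M) ^ E i := by
    intro i
    have h1 : P = N i * (P / N i) := (Nat.mul_div_cancel' (Finset.dvd_prod_of_mem N
      (Finset.mem_univ i))).symm
    have h2 : b i.succ * (s : ℤ) = (N i : ℤ) * E i := by
      rw [hs]
      conv_lhs => rw [h1]
      simp only [hE]
      push_cast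
      ring
    rw [← zpow_natCast, ← zpow_mul, h2, zpow_mul, zpow_natCast, hpow]
  have h1 : β ^ (b 0 * (s : ℤ)) * ∏ i, ((a i : ℚ) : M) ^ E i = 1 := by
    have h2 : mon θ β b ^ s = 1 := by rw [hs, pow_mul, h, one_pow]
    unfold mon at h2
    rw [mul_pow, ← Finset.prod_pow, ← zpow_natCast (β ^ b 0), ← zpow_mul,
      Finset.prod_congr rfl fun i _ => hE1 i] at h2
    exact h2
  have hne : b 0 * (s : ℤ) ≠ 0 := mul_ne_zero hb (by exact_mod_cast hs0.ne')
  have hpz : ∀ x : Fin r → ℤ, (∏ i, ((a i : ℚ) : M) ^ x i)⁻¹ = ∏ i, ((a i : ℚ) : M) ^ (-x i) := by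
    intro x
    rw [← Finset.prod_inv_distrib]
    exact Finset.prod_congr rfl fun i _ => by rw [zpow_neg]
  rcases Int.natAbs_eq (b 0 * (s : ℤ)) with h3 | h3
  · refine ⟨(b 0 * (s : ℤ)).natAbs, fun i => -E i, Int.natAbs_pos.2 hne, ?_⟩
    rw [← hpz, ← zpow_natCast, ← h3]
    exact eq_inv_of_mul_eq_one_left h1
  · refine ⟨(b 0 * (s : ℤ)).natAbs, E, Int.natAbs_pos.2 hne, ?_⟩
    rw [h3, zpow_neg, zpow_natCast] at h1
    exact ((inv_mul_eq_one₀ (pow_ne_zero _ hβ)).1 h1)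

theorem pf_MPB (hCNT : T_CNT) (hRLN : T_RLN) (hNRM : T_NRM) (hEXI : T_EXI) (hINE : T_INE)
    (hHTY : T_HTY) (hGHT : T_GHT) (hGSP : T_GSP) (hDSC : T_DSC) (hCGR : T_CGR) (hPDJ : T_PDJ)
    (hSML : T_SML) (hHF : Pool.Agent.H24.RD.T_HF) : T_MPB := by
  intro r a ha p hp hp3 hpa hlog
  obtain ⟨cr, hcr, hcnt⟩ := hCNT r
  set B : Fin r → ℝ := fun i => max 1 (logHeight₁ (a i)) with hBdef
  have hB1 : ∀ i, 1 ≤ B i := fun i => le_max_left _ _
  have hB0 : ∀ i, 0 < B i := fun i => lt_of_lt_of_le one_pos (hB1 i)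
  have hBh : ∀ i, logHeight₁ (a i) ≤ B i := fun i => le_max_right _ _
  have hp0 : (0 : ℝ) < p := by exact_mod_cast hp.pos
  set ρ1 : ℝ := 48 * (((r + 1 : ℕ) : ℝ) * p + (p : ℝ) ^ (r + 1)) with hρ1def
  have hρ1 : 0 < ρ1 := by positivity
  set σ : ℝ := min (Real.log 2 / 4) (1 / (4 * ((p : ℝ) + 1) * ((r : ℝ) + 1) * ρ1)) with hσdef
  have hlog2 : 0 < Real.log 2 := Real.log_pos (by norm_num)
  have hσ : 0 < σ := lt_min (by positivity) (by positivity)
  have hσ1 : σ ≤ Real.log 2 / 4 := min_le_left _ _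
  have hσ2 : σ ≤ 1 / (4 * ((p : ℝ) + 1) * ((r : ℝ) + 1) * ρ1) := min_le_right _ _
  have hPB : 0 < ∏ i, B i := Finset.prod_pos fun i _ => hB0 i
  set c : ℝ := cr * σ ^ (r + 1) / (2 * ∏ i, B i) with hcdef
  have hc : 0 < c := by positivity
  refine ⟨c, hc, ?_⟩
  intro M _ _ m N ζ θ hL hadj hpm β k e hβ hk hind
  by_contra hcon
  push Not at hcon
  -- basic facts
  have hN : ∀ i, 0 < N i := hL.N0
  have hNr : ∀ i, (0 : ℝ) < N i := fun i => by exact_mod_cast hN i
  have hθ : ∀ i, θ i ≠ 0 := by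
    intro i h0
    have h1 := hL.pow i
    rw [h0, zero_pow (hN i).ne'] at h1
    exact hL.nz i (by exact_mod_cast h1.symm)
  have hζ0 : ζ ≠ 0 := hL.prim.ne_zero hL.m0.ne'
  have hζm : ζ ^ m = 1 := hL.prim.pow_eq_one
  set D : ℝ := (Module.finrank ℚ M : ℝ) with hDdef
  have hD : 0 < D := by
    rw [hDdef]
    exact_mod_cast Module.finrank_pos
  have hkr : (0 : ℝ) < k := by exact_mod_cast hk
  have hhθ : ∀ i, (N i : ℝ) * logHeight₁ (θ i) = D * logHeight₁ (a i) := by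
    intro i
    have h1 : logHeight₁ (θ i ^ N i) = (N i : ℝ) * logHeight₁ (θ i) := logHeight₁_pow _ _
    have h2 := hHF ℚ M (a i)
    rw [← h1, hL.pow i, hDdef, ← h2]
    congr 1
  set H : Fin r → ℝ := fun i => B i / N i with hHdef
  have hH0 : ∀ i, 0 < H i := fun i => div_pos (hB0 i) (hNr i)
  have hhH : ∀ i, logHeight₁ (θ i) ≤ H i * D := by
    intro i
    have h1 := hhθ i
    have h2 : D * logHeight₁ (a i) ≤ D * B i := mul_le_mul_of_nonneg_left (hBh i) hD.le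
    simp only [hHdef]
    rw [div_mul_eq_mul_div, le_div_iff₀ (hNr i)]
    linarith
  set e' : Fin r → ℤ := fun i => (N i : ℤ) * e i with he'
  have hprod : ∏ i, ((a i : ℚ) : M) ^ e i = ∏ i, θ i ^ e' i := by
    refine Finset.prod_congr rfl fun i _ => ?_
    simp only [he']
    rw [zpow_mul, zpow_natCast, hL.pow i]
  have hht : logHeight₁ (β ^ k * ∏ i, θ i ^ e' i) ≤ k * c * D := by
    rw [← hprod]
    have : c * (k * D) = k * c * D := by ring
    rw [← this]
    exact hcon.le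
  set ξ : Fin r → ℝ := fun i => (e' i : ℝ) / k with hξ
  -- the relation
  obtain ⟨S0, hS0, hS0c⟩ := hcnt c σ H ξ hc hH0 hσ
  obtain ⟨hspan, hfin⟩ := hGSP M r m a N ζ θ hL hadj
  have hcard : Module.finrank (IntermediateField.adjoin ℚ {ζ}) M < S0.card := by
    have h1 : cr * σ ^ (r + 1) / (c * ∏ i, H i) = 2 * ∏ i, (N i : ℝ) := by
      have h2 : ∏ i, H i = (∏ i, B i) / ∏ i, (N i : ℝ) := by
        simp only [hHdef]
        rw [Finset.prod_div_distrib]
      have h3 : 0 < ∏ i, (N i : ℝ) := Finset.prod_pos fun i _ => hNr i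
      rw [h2, hcdef]
      field_simp
    rw [h1] at hS0c
    have h3 : (0 : ℝ) < ∏ i, (N i : ℝ) := Finset.prod_pos fun i _ => hNr i
    have h4 : (Module.finrank (IntermediateField.adjoin ℚ {ζ}) M : ℝ) ≤ ∏ i, (N i : ℝ) := by
      exact_mod_cast hfin
    have h5 : (Module.finrank (IntermediateField.adjoin ℚ {ζ}) M : ℝ) < S0.card := by linarith
    exact_mod_cast h5
  have hrel := hRLN (IntermediateField.adjoin ℚ {ζ}) M (r + 1) (mon θ β) (nrH c H ξ) σ S0 hS0 hcard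
  obtain ⟨φ, hφ⟩ := hCGR M m ζ hL.m0 hL.prim p hp hpm
  have hirr := hPDJ M r m a N ζ θ hL hadj p hp hpm hpa
  obtain ⟨hn1, hn2, hn3, hn4⟩ := hNRM r c H ξ hc hH0
  have hNm : IsNm (nrH c H ξ) := ⟨hn1, hn2, hn3, hn4⟩
  rcases hEXI (IntermediateField.adjoin ℚ {ζ}) M p hp hp3 hirr φ (r + 1) (mon θ β) (nrH c H ξ) σ
    (mpb_pt hβ hθ) hNm hσ.le hrel with ⟨b, hb0, hbN, t, ht, hbt⟩ | ⟨S, r2, cc, hSne, hSN, hrel1,
      hrel2, hr12⟩
  · -- a small torsion relation
    by_cases hb : b 0 = 0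
    · have hex : ∃ i : Fin r, b i.succ ≠ 0 := by
        by_contra hall
        push Not at hall
        apply hb0
        funext i
        refine Fin.cases hb (fun j => hall j) i
      obtain ⟨i, hi⟩ := hex
      have h1 : (∏ i, θ i ^ (fun j : Fin r => b j.succ) i) ^ t = 1 := by
        unfold mon at hbt
        rw [hb, zpow_zero, one_mul] at hbt
        exact hbt
      have h2 := hSML M r a N θ ha hN hL.cop hL.pow (fun j => b j.succ) t ht h1 i hi
      have h3 : H i * |(b i.succ : ℝ)| ≤ 2 * σ := by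
        refine le_trans ?_ hbN
        unfold nrH
        rw [hb]
        have h4 : ∀ j : Fin r, H j * |(b j.succ : ℝ) - ((0 : ℤ) : ℝ) * ξ j| =
            H j * |(b j.succ : ℝ)| := by
          intro j
          rw [Int.cast_zero, zero_mul, sub_zero]
        rw [Finset.sum_congr rfl fun j _ => h4 j, Int.cast_zero, abs_zero, zero_mul, zero_add]
        exact Finset.single_le_sum (f := fun j : Fin r => H j * |(b j.succ : ℝ)|)
          (fun j _ => mul_nonneg (hH0 j).le (abs_nonneg _)) (Finset.mem_univ i)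
      have h5 : |(b i.succ : ℝ)| * logHeight₁ (a i) ≤ 2 * σ * N i := by
        have h6 : |(b i.succ : ℝ)| * logHeight₁ (a i) ≤ |(b i.succ : ℝ)| * B i :=
          mul_le_mul_of_nonneg_left (hBh i) (abs_nonneg _)
        simp only [hHdef] at h3
        rw [div_mul_eq_mul_div, div_le_iff₀ (hNr i)] at h3
        linarith
      have h6 : (N i : ℝ) * Real.log 2 ≤ 2 * σ * N i := h2.trans h5
      have h7 : (N i : ℝ) * Real.log 2 ≤ N i * (Real.log 2 / 2) := by
        have h8 : 2 * σ * N i ≤ N i * (Real.log 2 / 2) := by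
          have := mul_le_mul_of_nonneg_left hσ1 (hNr i).le
          linarith
        linarith
      have h9 := le_of_mul_le_mul_left h7 (hNr i)
      linarith
    · exact hind (mpb_dep hβ hN hL.pow b hb t ht hbt)
  · -- many relations
    set Y : S → M := fun b => mon θ β b with hY
    obtain ⟨b1, hb1⟩ := hSne
    have hY0 : Y ≠ 0 := fun h0 => mpb_ne hβ hθ b1 (congrFun h0 ⟨b1, hb1⟩)
    set G : Fin m × (∀ i, Fin (N i)) → M :=
      fun j => ζ ^ (j.1 : ℕ) * ∏ i, θ i ^ (j.2 i : ℕ) with hG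
    have hG0 : ∀ j, G j ≠ 0 := fun j => mul_ne_zero (pow_ne_zero _ hζ0)
      (Finset.prod_ne_zero_iff.2 fun i _ => pow_ne_zero _ (hθ i))
    have hdisc := hDSC M r m a N ζ θ hL hadj
    have hine := hINE (IntermediateField.adjoin ℚ {ζ}) M φ p hp hφ hdisc S
      (Fin m × (∀ i, Fin (N i))) Y G hY0 hG0 hspan r2 cc hrel1 hrel2
    have hGh : logHeight G ≤ D * hs a := by
      have h1 := hGHT M r m N ζ θ hL.m0 hN hζm hθ
      rw [Finset.sum_congr rfl fun i _ => hhθ i, ← Finset.mul_sum] at h1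
      exact h1
    have hYh : logHeight Y ≤ 2 * (r + 1) * (ρ1 * σ) * D := by
      refine hHTY M r β θ k e' hβ hθ hk c H hc hH0 hht hhH (ρ1 * σ) S (by positivity)
        ⟨b1, hb1⟩ fun b hb => ?_
      exact hSN b hb
    set hy : ℝ := logHeight Y / D with hhy
    set hg : ℝ := logHeight G / D with hhg
    have hy0 : 0 ≤ hy := div_nonneg (Height.logHeight_nonneg _) hD.le
    have hg0 : 0 ≤ hg := div_nonneg (Height.logHeight_nonneg _) hD.le
    have hg1 : hg ≤ hs a := by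
      rw [hhg, div_le_iff₀ hD]
      linarith
    have hy1 : hy ≤ 2 * (r + 1) * (ρ1 * σ) := by
      rw [hhy, div_le_iff₀ hD]
      exact hYh
    have hr1 : 0 < Module.finrank (IntermediateField.adjoin ℚ {ζ})
        (Submodule.span (IntermediateField.adjoin ℚ {ζ}) (Set.range Y)) := by
      rw [Module.finrank_pos_iff]
      refine ⟨⟨Y ⟨b1, hb1⟩, Submodule.subset_span ⟨_, rfl⟩⟩, 0, fun h0 => ?_⟩
      exact mpb_ne hβ hθ b1 (congrArg Subtype.val h0)
    set r1 : ℝ := (Module.finrank (IntermediateField.adjoin ℚ {ζ})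
        (Submodule.span (IntermediateField.adjoin ℚ {ζ}) (Set.range Y)) : ℝ) with hr1def
    have hr1' : 0 < r1 := by
      rw [hr1def]
      exact_mod_cast hr1
    have hr12' : r1 ≤ (r2 : ℝ) := by
      rw [hr1def]
      exact_mod_cast hr12
    have hr2 : (0 : ℝ) < r2 := lt_of_lt_of_le hr1' hr12'
    have h1 : r1 * (Real.log 2 / 2 + hg + hy) ≤ r2 * (Real.log 2 / 2 + hg + hy) :=
      mul_le_mul_of_nonneg_right hr12' (by positivity)
    have h2 : (r2 : ℝ) * (Real.log p - p * hy - (Real.log 2 / 2 + hg)) ≤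
        r2 * (Real.log 2 / 2 + hg + hy) := hine.trans h1
    have h3 := le_of_mul_le_mul_left h2 hr2
    have h4 : ((p : ℝ) + 1) * hy ≤ 1 / 2 := by
      have h5 : ((p : ℝ) + 1) * hy ≤ ((p : ℝ) + 1) * (2 * (r + 1) * (ρ1 * σ)) :=
        mul_le_mul_of_nonneg_left hy1 (by positivity)
      have h6 : 4 * ((p : ℝ) + 1) * ((r : ℝ) + 1) * ρ1 * σ ≤ 1 := by
        rw [le_div_iff₀ (by positivity)] at hσ2
        linarith
      have h7 : ((p : ℝ) + 1) * (2 * (r + 1) * (ρ1 * σ)) =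
          (4 * ((p : ℝ) + 1) * ((r : ℝ) + 1) * ρ1 * σ) / 2 := by ring
      linarith
    linarith

end Pool.Agent.H46.REM
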